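import Pool.Agent.Results.MP_ede373_nt.AlgebraicPointsOrNomes
import Pool.Agent.V5helper64.NR.Sets

/-!
# The modular Schanuel conjecture with derivatives at the algebraic points near a given point

Let `τ_1, …, τ_p` be analytic functions on a connected open set `U` with values in the upper half-plane, such that no
nontrivial combination of them with integral coefficients is constant and `j(τ_i)` and `j(τ_k)` are algebraically
independent over `ℂ` for `i ≠ k`, and let a set `S` of `p` of the `5 p` functions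

  `τ_i(x)`, `j(τ_i(x))`, `j'(τ_i(x))`, `j''(τ_i(x))`, `exp(2 π i τ_i(x))`

be algebraic over `ℂ(x)`. The starting file `AlgebraicPointsOrNomes` shows that all other `4 p` numbers have no approximate
relation of bounded degree and height `T ^ A` at the points `x` of height at most `T` of a number field `F`, with the
exception of `O(T ^ ε)` points `x` (of `T ^ (2 [F : ℚ])`). Nothing is said there about the points near a given point.

**Theorem.** Let `ω_0, ω_1, …` be complex numbers. There is a set `E` of Hausdorff dimension zero such that for all `ξ ∈ U`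
outside `E`, all `κ > 0` and all `m`, `g`, `d`, `A` there is `B` such that for all number fields `F ⊂ ℂ` of degree at
most `m` and all `c` there are only finitely many `x ∈ F` with the following property: for some `T ≥ 1`, `x` is a
quotient of two integers of `F` with conjugates of absolute value at most `T`, `|x - ξ| ≤ c T ^ (-κ)`, and a polynomial `P` of
degree at most `d` in each variable, with coefficients `∑_(i < g) ω_i c_i`, `c_i` integers of `F` with conjugates of
absolute value at most `T ^ A`, takes at the `4 p` numbers a value of absolute value at most `T ^ (-B)` times the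
absolute value of some nonzero coefficient of `P`. The set `E` does not depend on `κ`, `m`, `g`, `d`, `A`, `F`, `c`.

For `p = 1`, `τ(x) = x` and `S = {τ}` these are the numbers `j(x)`, `j'(x)`, `j''(x)`, `exp(2 π i x)` at the
algebraic points `x` in the upper half-plane near `ξ`.

Proof. The points near infinitely many exceptional `x` are a set of dimension at most `ε / κ` (helper559, `NR.Sets`);
dyadic levels `T`, since the condition on `P` is not monotone in `T`, and a countable family of compact sets and fields.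
-/

set_option autoImplicit false

namespace Pool.Agent.Results.MP_ede373_nt.PointsNearAPoint

open NumberField AlgebraicPointsOrNomes

/-- The exceptional points `x ∈ F`: `x` is a quotient of two integers of `F` with conjugates of absolute value at most
`T` and lies in `K`, and there is a polynomial `P` of degree at most `d` in each variable, with coefficients
`∑_(i < g) ω_i c_i`, where the `c_i` are integers of `F` with conjugates of absolute value at most `T ^ A`, such that the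
value of `P` at the numbers `value τ x k`, `k ∉ S`, is at most `T ^ (-B)` times the absolute value of some nonzero
coefficient of `P` (`Exceptional` of the starting file, for one curve). -/
def Exc {p : ℕ} (τ : Fin p → ℂ → ℂ) (S : Finset (Name p)) (ω : ℕ → ℂ) (F : IntermediateField ℚ ℂ) [NumberField F]
    (K : Set ℂ) (g d : ℕ) (A B T : ℝ) : Set F :=
  {x | (fun _ : Fin 1 => x) ∈ Exceptional 1 d (fun _ z (k : {x : Name p // x ∉ S}) => value τ z k.1) F
    (algebraMap F ℂ) (fun i : Fin g => ω i) (fun _ => K) A B T}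

theorem primitive (K : IntermediateField ℚ ℂ)
    (h : @Module.Finite ℚ K _ _ (K.algebra').toModule) :
    ∃ a : K, IntermediateField.adjoin ℚ {(a : ℂ)} = K ∧ IsAlgebraic ℚ (a : ℂ) := by
  obtain ⟨a, ha⟩ := @Field.exists_primitive_element ℚ K _ _ K.algebra' h
    (by
      have := @Algebra.IsAlgebraic.of_finite ℚ K _ _ _ K.algebra' h
      exact @Algebra.IsAlgebraic.isSeparable_of_perfectField ℚ K _ _ K.algebra' this _)
  refine ⟨a, ?_, ?_⟩
  · have h2 := congrArg IntermediateField.lift ha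
    rw [IntermediateField.lift_adjoin_simple, IntermediateField.lift_top] at h2
    exact h2
  · have h3 : @IsAlgebraic ℚ K _ _ K.algebra' a := by
      have := @Algebra.IsAlgebraic.of_finite ℚ K _ _ _ K.algebra' h
      exact Algebra.IsAlgebraic.isAlgebraic a
    have := @IsAlgebraic.algebraMap ℚ K ℂ _ _ _ _ K.algebra' _ _ a h3
    exact this

theorem finite_of (K : IntermediateField ℚ ℂ) (hK : NumberField K) :
    @Module.Finite ℚ K _ _ (K.algebra').toModule := by
  have h := NumberField.to_finiteDimensional (K := K)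
  convert h

/-- the number fields contained in `ℂ` form a countable set -/
theorem countable_fields : {K : IntermediateField ℚ ℂ | NumberField K}.Countable := by
  have hA : Countable {x : ℂ | IsAlgebraic ℚ x} := (Algebraic.countable ℚ ℂ).to_subtype
  refine Set.Countable.mono ?_ (Set.countable_range
    (fun a : {x : ℂ | IsAlgebraic ℚ x} => IntermediateField.adjoin ℚ {(a : ℂ)}))
  intro K hK
  obtain ⟨a, h1, h2⟩ := primitive K (finite_of K hK)
  exact ⟨⟨(a : ℂ), h2⟩, h1⟩

/-- there are only finitely many quotients of integers of bounded size -/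
theorem points_finite (F : Type) [Field F] [NumberField F] (ι : F →+* ℂ) (K : Set ℂ) (T : ℝ) :
    (Points F ι K T).Finite := by
  have h1 : {a : F | IsIntegral ℤ a ∧ ∀ φ : F →+* ℂ, ‖φ a‖ ≤ T}.Finite :=
    NumberField.Embeddings.finite_of_norm_le F ℂ T
  refine ((h1.prod h1).image fun q : F × F => q.1 / q.2).subset ?_
  rintro x ⟨-, a, b, -, hab, rfl⟩
  exact ⟨((a : F), (b : F)), ⟨⟨RingOfIntegers.isIntegral_coe a, fun φ => (hab φ).1⟩,
    ⟨RingOfIntegers.isIntegral_coe b, fun φ => (hab φ).2⟩⟩, rfl⟩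

/-- change of the parameters -/
theorem Exc.mono {p : ℕ} {τ : Fin p → ℂ → ℂ} {S : Finset (Name p)} {ω : ℕ → ℂ} {F : IntermediateField ℚ ℂ}
    [NumberField F] {K K' : Set ℂ} {g d : ℕ} {A A' B B' T T' : ℝ} {x : F} (h : x ∈ Exc τ S ω F K g d A B T)
    (hK : (x : ℂ) ∈ K') (hT : T ≤ T') (hA : T ^ A ≤ T' ^ A') (hB : T ^ (-B) ≤ T' ^ (-B')) :
    x ∈ Exc τ S ω F K' g d A' B' T' := by
  obtain ⟨h1, P, h2, h3, s₀, h4, h5⟩ := h
  refine ⟨fun j => ?_, P, h2, fun s => ?_, s₀, h4, h5.trans (mul_le_mul_of_nonneg_right hB (norm_nonneg _))⟩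
  · obtain ⟨-, a, b, hb, hab, hx⟩ := h1 j
    exact ⟨hK, a, b, hb, fun φ => ⟨(hab φ).1.trans hT, (hab φ).2.trans hT⟩, hx⟩
  · obtain ⟨c, hc, hc'⟩ := h3 s
    exact ⟨c, fun i φ => (hc i φ).trans hA, hc'⟩

/-- closed discs with rational centres and radii which are contained in `U` -/
def disc (U : Set ℂ) (y : ℚ × ℚ × ℚ) : Set ℂ :=
  {z | z ∈ Metric.closedBall ((y.1 : ℂ) + (y.2.1 : ℂ) * Complex.I) (y.2.2 : ℝ) ∧
    Metric.closedBall ((y.1 : ℂ) + (y.2.1 : ℂ) * Complex.I) (y.2.2 : ℝ) ⊆ U}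

theorem disc_compact (U : Set ℂ) (y : ℚ × ℚ × ℚ) : IsCompact (disc U y) := by
  by_cases h : Metric.closedBall ((y.1 : ℂ) + (y.2.1 : ℂ) * Complex.I) (y.2.2 : ℝ) ⊆ U
  · have : disc U y = Metric.closedBall ((y.1 : ℂ) + (y.2.1 : ℂ) * Complex.I) (y.2.2 : ℝ) := by
      ext z
      simp [disc, h]
    rw [this]
    exact isCompact_closedBall _ _
  · have : disc U y = ∅ := by
      ext z
      simp [disc, h]
    rw [this]
    exact isCompact_empty

theorem disc_subset (U : Set ℂ) (y : ℚ × ℚ × ℚ) : disc U y ⊆ U := fun _ hz => hz.2 hz.1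

/-- each point of `U` is in the interior of one of the discs -/
theorem exists_disc {U : Set ℂ} (hU : IsOpen U) {ξ : ℂ} (hξ : ξ ∈ U) :
    ∃ (y : ℚ × ℚ × ℚ) (ρ : ℝ), 0 < ρ ∧ ∀ z, dist z ξ ≤ ρ → z ∈ disc U y := by
  obtain ⟨ε, hε, hball⟩ := Metric.isOpen_iff.1 hU ξ hξ
  obtain ⟨a, ha1, ha2⟩ := exists_rat_btwn (show ξ.re - ε / 8 < ξ.re + ε / 8 by linarith)
  obtain ⟨b, hb1, hb2⟩ := exists_rat_btwn (show ξ.im - ε / 8 < ξ.im + ε / 8 by linarith)
  obtain ⟨r, hr1, hr2⟩ := exists_rat_btwn (show ε / 2 < 5 * ε / 8 by linarith)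
  have hd : dist ξ ((a : ℂ) + (b : ℂ) * Complex.I) ≤ ε / 4 := by
    rw [Complex.dist_eq]
    refine (Complex.norm_le_abs_re_add_abs_im _).trans ?_
    have h1 : |(ξ - ((a : ℂ) + (b : ℂ) * Complex.I)).re| ≤ ε / 8 := by
      simp only [Complex.sub_re, Complex.add_re, Complex.ratCast_re, Complex.mul_re, Complex.I_re, mul_zero,
        Complex.ratCast_im, Complex.I_im, mul_one, sub_self, add_zero]
      rw [abs_le]
      constructor <;> linarith
    have h2 : |(ξ - ((a : ℂ) + (b : ℂ) * Complex.I)).im| ≤ ε / 8 := by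
      simp only [Complex.sub_im, Complex.add_im, Complex.ratCast_im, Complex.mul_im, Complex.I_re, mul_zero,
        Complex.ratCast_re, Complex.I_im, mul_one, zero_add, add_zero]
      rw [abs_le]
      constructor <;> linarith
    linarith
  refine ⟨(a, b, r), ε / 8, by positivity, fun z hz => ⟨?_, ?_⟩⟩
  · rw [Metric.mem_closedBall]
    have := dist_triangle z ξ ((a : ℂ) + (b : ℂ) * Complex.I)
    linarith
  · intro w hw
    rw [Metric.mem_closedBall] at hw
    apply hball
    rw [Metric.mem_ball]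
    have := dist_triangle w ((a : ℂ) + (b : ℂ) * Complex.I) ξ
    rw [dist_comm ((a : ℂ) + (b : ℂ) * Complex.I) ξ] at this
    linarith

theorem general {p : ℕ} (U : Set ℂ) (τ : Fin p → ℂ → ℂ) (S : Finset (Name p)) (hU : Curve U τ S) (ω : ℕ → ℂ) :
    ∃ E : Set ℂ, dimH E = 0 ∧ ∀ ξ ∈ U, ξ ∉ E → ∀ κ : ℝ, 0 < κ → ∀ (m g d : ℕ) (A : ℝ), ∃ B : ℝ,
      ∀ (F : IntermediateField ℚ ℂ) [NumberField F], Module.finrank ℚ F ≤ m → ∀ c : ℝ,
        {x : F | ∃ T : ℝ, 1 ≤ T ∧ x ∈ Exc τ S ω F U g d A B T ∧ dist (x : ℂ) ξ ≤ c * T ^ (-κ)}.Finite := by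
  classical
  -- the counts, for `ε = 1 / (j + 1)`
  have hres : ∀ (j : ℕ) (y : (ℚ × ℚ × ℚ) × ℕ × ℕ × ℕ × ℕ), ∃ B C T₀ : ℝ, ∀ (F : IntermediateField ℚ ℂ) [NumberField F],
      Module.finrank ℚ F ≤ y.2.1 → ∀ T : ℝ, T₀ ≤ T →
      (Exc τ S ω F (disc U y.1) y.2.2.1 y.2.2.2.1 y.2.2.2.2 B T).Finite ∧
      ((Exc τ S ω F (disc U y.1) y.2.2.1 y.2.2.2.1 y.2.2.2.2 B T).ncard : ℝ) ≤ C * T ^ (1 / ((j : ℝ) + 1)) := by
    rintro j ⟨y, m, g, d, A⟩
    obtain ⟨B, C, T₀, h⟩ := AlgebraicPointsOrNomes.result (n := 1) (fun _ => U) (fun _ => τ) (fun _ => S)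
      (fun _ => hU) (fun _ => disc U y) (fun _ => disc_compact U y) (fun _ => disc_subset U y) m g d (A : ℝ)
      (1 / ((j : ℝ) + 1)) (by positivity)
    refine ⟨B, C, T₀, fun F _ hF T hT => ?_⟩
    obtain ⟨h1, h2⟩ := h F hF (algebraMap F ℂ) (fun i => ω i) T hT
    rw [Nat.sub_self, pow_zero, mul_one] at h2
    have hinj : Set.InjOn (fun (x : F) (_ : Fin 1) => x) (Exc τ S ω F (disc U y) g d A B T) :=
      fun x _ x' _ h => congrFun h 0
    have hsub : (fun (x : F) (_ : Fin 1) => x) '' (Exc τ S ω F (disc U y) g d A B T) ⊆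
        Exceptional 1 d (fun _ z (k : {x : Name p // x ∉ S}) => value τ z k.1) F
          (algebraMap F ℂ) (fun i : Fin g => ω i) (fun _ => disc U y) A B T := by
      rintro _ ⟨x, hx, rfl⟩
      exact hx
    refine ⟨Set.Finite.of_finite_image (h1.subset hsub) hinj, le_trans ?_ h2⟩
    rw [← hinj.ncard_image]
    exact_mod_cast Set.ncard_le_ncard hsub h1
  choose B C T₀ hBC using hres
  have hctb : Countable {F : IntermediateField ℚ ℂ | NumberField F} := countable_fields.to_subtype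
  -- the exceptional points up to the level `T`
  obtain ⟨E, hE, hE'⟩ := Pool.Agent.V5helper64.NR.near_sets
    (Y := ((ℚ × ℚ × ℚ) × ℕ × ℕ × ℕ × ℕ) × {F : IntermediateField ℚ ℂ | NumberField F})
    (F := fun j y T => {w : ℂ | @Module.finrank ℚ y.2.1 _ _ _ ≤ y.1.2.1 ∧
      ∃ i : ℕ, 2 ^ i ≤ 2 * T ∧ T₀ j y.1 ≤ 2 ^ i ∧ ∃ x : y.2.1, (x : ℂ) = w ∧
        x ∈ @Exc p τ S ω y.2.1 y.2.2 (disc U y.1.1) y.1.2.2.1 y.1.2.2.2.1 (y.1.2.2.2.2 : ℝ) (B j y.1) (2 ^ i)})
    (by
      rintro j y t t' htt w ⟨h0, i, h1, h2⟩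
      exact ⟨h0, i, by omega, h2⟩)
    (by
      rintro j ⟨y, F, hF⟩
      have hF' : NumberField F := hF
      set ε : ℝ := 1 / ((j : ℝ) + 1) with hε
      have hε0 : 0 < ε := by positivity
      have h2ε : (1 : ℝ) < 2 ^ ε := Real.one_lt_rpow one_lt_two hε0
      by_cases hm : Module.finrank ℚ F ≤ y.2.1
      · refine ⟨|C j y| * (2 ^ ε * 2 ^ ε / (2 ^ ε - 1)), fun T hT => ?_⟩
        set I : ℕ := Nat.log 2 (2 * T) with hI
        obtain ⟨G, hG⟩ : ∃ G : ℕ → Set ℂ, G = fun i => {w | T₀ j y ≤ 2 ^ i ∧ ∃ x : F, (x : ℂ) = w ∧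
            x ∈ Exc τ S ω F (disc U y.1) y.2.2.1 y.2.2.2.1 (y.2.2.2.2 : ℝ) (B j y) (2 ^ i)} := ⟨_, rfl⟩
        have hG1 : ∀ i, (G i).Finite ∧ ((G i).ncard : ℝ) ≤ |C j y| * (2 ^ ε) ^ i := by
          intro i
          by_cases hi : T₀ j y ≤ 2 ^ i
          · obtain ⟨h1, h2⟩ := hBC j y F hm (2 ^ i) hi
            have h3 : G i = (fun x : F => (x : ℂ)) ''
                (Exc τ S ω F (disc U y.1) y.2.2.1 y.2.2.2.1 (y.2.2.2.2 : ℝ) (B j y) (2 ^ i)) := by
              rw [hG]
              ext w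
              constructor
              · rintro ⟨-, x, rfl, hx⟩
                exact ⟨x, hx, rfl⟩
              · rintro ⟨x, hx, rfl⟩
                exact ⟨hi, x, rfl, hx⟩
            rw [h3]
            refine ⟨h1.image _, ?_⟩
            have h4 : (((fun x : F => (x : ℂ)) ''
                (Exc τ S ω F (disc U y.1) y.2.2.1 y.2.2.2.1 (y.2.2.2.2 : ℝ) (B j y) (2 ^ i))).ncard : ℝ) ≤
                ((Exc τ S ω F (disc U y.1) y.2.2.1 y.2.2.2.1 (y.2.2.2.2 : ℝ) (B j y) (2 ^ i)).ncard : ℝ) := by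
              exact_mod_cast Set.ncard_image_le h1
            have e1 : ((2 : ℝ) ^ i) ^ ε = (2 ^ ε) ^ i := by
              rw [← Real.rpow_natCast 2 i, ← Real.rpow_natCast (2 ^ ε) i, ← Real.rpow_mul two_pos.le,
                ← Real.rpow_mul two_pos.le, mul_comm]
            refine h4.trans (h2.trans ?_)
            rw [← hε, e1]
            exact mul_le_mul_of_nonneg_right (le_abs_self _) (by positivity)
          · have h3 : G i = ∅ := by
              rw [hG]
              ext w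
              simp [hi]
            rw [h3]
            refine ⟨Set.finite_empty, ?_⟩
            rw [Set.ncard_empty, Nat.cast_zero]
            positivity
        have hsub : {w : ℂ | Module.finrank ℚ F ≤ y.2.1 ∧ ∃ i : ℕ, 2 ^ i ≤ 2 * T ∧ T₀ j y ≤ 2 ^ i ∧
            ∃ x : F, (x : ℂ) = w ∧
              x ∈ Exc τ S ω F (disc U y.1) y.2.2.1 y.2.2.2.1 (y.2.2.2.2 : ℝ) (B j y) (2 ^ i)} ⊆
            ⋃ i ∈ Finset.range (I + 1), G i := by
          rintro w ⟨-, i, h1, h2, x, h3, h4⟩
          refine Set.mem_biUnion (x := i) ?_ ?_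
          · rw [Finset.coe_range, Set.mem_Iio, Nat.lt_succ_iff, hI]
            exact Nat.le_log_of_pow_le one_lt_two h1
          · rw [hG]
            exact ⟨h2, x, h3, h4⟩
        have hfin : (⋃ i ∈ Finset.range (I + 1), G i).Finite :=
          Set.Finite.biUnion (Finset.finite_toSet _) fun i _ => (hG1 i).1
        refine ⟨hfin.subset hsub, ?_⟩
        have h3 : ((⋃ i ∈ Finset.range (I + 1), G i).ncard : ℝ) ≤ ∑ i ∈ Finset.range (I + 1), ((G i).ncard : ℝ) := by
          rw [← Nat.cast_sum]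
          exact Nat.cast_le.2 (Finset.set_ncard_biUnion_le _ _)
        refine le_trans (Nat.cast_le.2 (Set.ncard_le_ncard hsub hfin)) (h3.trans ?_)
        refine (Finset.sum_le_sum fun i _ => (hG1 i).2).trans ?_
        rw [← Finset.mul_sum, geom_sum_eq (by linarith : (2 : ℝ) ^ ε ≠ 1), mul_assoc]
        refine mul_le_mul_of_nonneg_left ?_ (abs_nonneg _)
        rw [div_mul_eq_mul_div]
        refine div_le_div_of_nonneg_right ?_ (by linarith)
        have h5 : ((2 : ℝ) ^ ε) ^ I ≤ (2 * T : ℝ) ^ ε := by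
          have h6 : (2 : ℝ) ^ I ≤ 2 * T := by
            have := Nat.pow_log_le_self 2 (x := 2 * T) (by omega)
            exact_mod_cast this
          calc ((2 : ℝ) ^ ε) ^ I = ((2 : ℝ) ^ I) ^ ε := by
                rw [← Real.rpow_natCast (2 ^ ε) I, ← Real.rpow_natCast 2 I, ← Real.rpow_mul two_pos.le,
                  ← Real.rpow_mul two_pos.le, mul_comm]
            _ ≤ _ := Real.rpow_le_rpow (by positivity) h6 hε0.le
        rw [Real.mul_rpow two_pos.le (Nat.cast_nonneg _)] at h5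
        have h7 : ((2 : ℝ) ^ ε) ^ (I + 1) = 2 ^ ε * (2 ^ ε) ^ I := by rw [pow_succ']
        rw [h7]
        have h8 := mul_le_mul_of_nonneg_left h5 (by positivity : (0 : ℝ) ≤ 2 ^ ε)
        linarith
      · refine ⟨0, fun T hT => ?_⟩
        have h3 : {w : ℂ | Module.finrank ℚ F ≤ y.2.1 ∧ ∃ i : ℕ, 2 ^ i ≤ 2 * T ∧ T₀ j y ≤ 2 ^ i ∧
            ∃ x : F, (x : ℂ) = w ∧
              x ∈ Exc τ S ω F (disc U y.1) y.2.2.1 y.2.2.2.1 (y.2.2.2.2 : ℝ) (B j y) (2 ^ i)} = ∅ := by
          ext w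
          simp [hm]
        refine ⟨(Set.finite_empty).subset h3.subset, ?_⟩
        refine le_trans (le_of_eq ?_) (le_of_eq (zero_mul _).symm)
        exact_mod_cast (congrArg Set.ncard h3).trans (Set.ncard_empty _))
    (fun w : ℂ => w)
  refine ⟨E, hE, fun ξ hξU hξ κ hκ m g d A => ?_⟩
  obtain ⟨j, hj⟩ := hE' ξ hξ κ hκ
  obtain ⟨q, ρ, hρ, hq⟩ := exists_disc hU.isOpen hξU
  obtain ⟨A', hA'⟩ := exists_nat_ge A
  obtain ⟨y, hy⟩ : ∃ y : (ℚ × ℚ × ℚ) × ℕ × ℕ × ℕ × ℕ, y = (q, m, g, d, A') := ⟨_, rfl⟩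
  obtain ⟨b, hb⟩ : ∃ b : ℝ, b = max (B j y) 0 := ⟨_, rfl⟩
  have hb0 : 0 ≤ b := by rw [hb]; exact le_max_right _ _
  have hbB : B j y ≤ b := by rw [hb]; exact le_max_left _ _
  refine ⟨b + 1, fun F hF hFm c => ?_⟩
  -- a level from which on everything is in order
  have hlim : Filter.Tendsto (fun T : ℝ => c * T ^ (-κ)) Filter.atTop (nhds 0) := by
    have := (tendsto_rpow_neg_atTop hκ).const_mul c
    rwa [mul_zero] at this
  obtain ⟨T₁, hT₁⟩ := Filter.eventually_atTop.1 ((hlim.eventually_le_const hρ).and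
    ((Filter.eventually_ge_atTop (T₀ j y)).and (Filter.eventually_ge_atTop ((2 : ℝ) ^ b))))
  have hfin1 : {x : F | ∃ T : ℝ, T ≤ T₁ ∧ x ∈ Points F (algebraMap F ℂ) U T}.Finite := by
    refine (points_finite F (algebraMap F ℂ) U T₁).subset ?_
    rintro x ⟨T, hT, h1, a, a', h2, h3, h4⟩
    exact ⟨h1, a, a', h2, fun φ => ⟨(h3 φ).1.trans hT, (h3 φ).2.trans hT⟩, h4⟩
  have hfin2 := hj (y, ⟨F, hF⟩) (max c 0 * 2 ^ κ)
  have hfin3 : {x : F | (x : ℂ) ∈ {w : ℂ | ∃ T : ℕ, 1 ≤ T ∧ (Module.finrank ℚ F ≤ y.2.1 ∧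
      ∃ i : ℕ, 2 ^ i ≤ 2 * T ∧ T₀ j y ≤ 2 ^ i ∧ ∃ x : F, (x : ℂ) = w ∧
        x ∈ Exc τ S ω F (disc U y.1) y.2.2.1 y.2.2.2.1 (y.2.2.2.2 : ℝ) (B j y) (2 ^ i)) ∧
        dist w ξ ≤ max c 0 * 2 ^ κ * (T : ℝ) ^ (-κ)}}.Finite :=
    Set.Finite.preimage (Subtype.val_injective.injOn) hfin2
  refine (hfin1.union hfin3).subset ?_
  rintro x ⟨T, hT1, hx, hd⟩
  rcases le_total T T₁ with hT | hT
  · left
    exact ⟨T, hT, hx.1 0⟩
  · right
    obtain ⟨h1, h2, h3⟩ := hT₁ T hT
    have hex : ∃ i : ℕ, T ≤ 2 ^ i := (pow_unbounded_of_one_lt T one_lt_two).imp fun i hi => hi.le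
    obtain ⟨i, hi⟩ : ∃ i, i = Nat.find hex := ⟨_, rfl⟩
    have hi1 : T ≤ 2 ^ i := by rw [hi]; exact Nat.find_spec hex
    have hi2 : (2 : ℝ) ^ i ≤ 2 * T := by
      rcases Nat.eq_zero_or_pos i with h0 | h0
      · rw [h0, pow_zero]
        linarith
      · have h4 := Nat.find_min hex (m := i - 1) (by omega)
        rw [not_le] at h4
        have h5 : (2 : ℝ) ^ i = 2 * 2 ^ (i - 1) := by
          rw [← pow_succ']
          congr 1
          omega
        rw [h5]
        linarith
    have hT0 : 0 < T := by linarith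
    have h2i : (0 : ℝ) < 2 ^ i := by positivity
    refine ⟨2 ^ i, Nat.one_le_two_pow, ⟨by rw [hy]; exact hFm, i, by omega, h2.trans hi1, x, rfl, ?_⟩, ?_⟩
    · rw [hy]
      rw [hy] at hbB
      refine Exc.mono hx (hq _ (hd.trans h1)) hi1 ?_ ?_
      · calc T ^ A ≤ T ^ (A' : ℝ) := Real.rpow_le_rpow_of_exponent_le hT1 hA'
          _ ≤ (2 ^ i) ^ (A' : ℝ) := Real.rpow_le_rpow hT0.le hi1 (Nat.cast_nonneg _)
      · calc T ^ (-(b + 1)) = T ^ (-b) * T ^ (-1 : ℝ) := by
              rw [← Real.rpow_add hT0]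
              congr 1
              ring
          _ ≤ T ^ (-b) * 2 ^ (-b) := by
              refine mul_le_mul_of_nonneg_left ?_ (by positivity)
              rw [Real.rpow_neg_one, Real.rpow_neg two_pos.le]
              exact inv_anti₀ (by positivity) h3
          _ = (2 * T) ^ (-b) := by
              rw [Real.mul_rpow two_pos.le hT0.le, mul_comm]
          _ ≤ (2 ^ i) ^ (-b) := Real.rpow_le_rpow_of_nonpos h2i hi2 (by linarith)
          _ ≤ (2 ^ i) ^ (-(B j (q, m, g, d, A'))) :=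
              Real.rpow_le_rpow_of_exponent_le (one_le_pow₀ one_le_two) (by linarith)
    · refine hd.trans ?_
      push_cast
      have h6 : (2 * T) ^ (-κ) ≤ ((2 : ℝ) ^ i) ^ (-κ) := Real.rpow_le_rpow_of_nonpos h2i hi2 (by linarith)
      have h7 : c * T ^ (-κ) ≤ max c 0 * T ^ (-κ) := mul_le_mul_of_nonneg_right (le_max_left _ _) (by positivity)
      refine h7.trans ?_
      rw [mul_assoc]
      refine mul_le_mul_of_nonneg_left ?_ (le_max_right _ _)
      have h8 : T ^ (-κ) = 2 ^ κ * (2 * T) ^ (-κ) := by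
        rw [Real.mul_rpow two_pos.le hT0.le, ← mul_assoc, ← Real.rpow_add two_pos, add_neg_cancel,
          Real.rpow_zero, one_mul]
      rw [h8]
      exact mul_le_mul_of_nonneg_left h6 (by positivity)

/-- the example `τ(x) = x`, with the numbers `j(x)`, `j'(x)`, `j''(x)`, `exp(2 π i x)` -/
theorem curve_id : Curve {z : ℂ | 0 < z.im} (fun (_ : Fin 1) z => z) {Name.tau 0} where
  pos := one_pos
  isOpen := isOpen_lt continuous_const Complex.continuous_im
  isPreconnected := (convex_halfSpace_im_gt 0).isPreconnected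
  nonempty := ⟨Complex.I, by simp⟩
  analytic := fun _ => analyticOnNhd_id
  im_pos := fun _ _ hz => hz
  linear := by
    intro m hm c
    have h0 : m 0 ≠ 0 := by
      intro h
      apply hm
      funext i
      rw [Subsingleton.elim i 0]
      exact h
    by_cases h : ((m 0 : ℤ) : ℂ) * Complex.I = c
    · refine ⟨2 * Complex.I, by simp, ?_⟩
      rw [Fin.sum_univ_one, ← h]
      intro h1
      have h2 : ((m 0 : ℤ) : ℂ) * Complex.I = 0 := by linear_combination h1
      rcases mul_eq_zero.1 h2 with h3 | h3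
      · exact h0 (by exact_mod_cast h3)
      · exact Complex.I_ne_zero h3
    · exact ⟨Complex.I, by simp, by rwa [Fin.sum_univ_one]⟩
  independent := fun i k hik => absurd (Subsingleton.elim i k) hik
  card := by simp
  algebraic := by
    intro x hx
    rw [Finset.mem_singleton] at hx
    subst hx
    refine ⟨MvPolynomial.X 1 - MvPolynomial.X 0, ?_, fun z _ => ?_⟩
    · intro h
      have := congrArg (MvPolynomial.eval ![(0 : ℂ), 1]) h
      simp at this
    · simp [value]

/-- **Theorem.** Let `(U, τ, S)` be a curve and `ω_0, ω_1, …` complex numbers. There is `E` of Hausdorff dimension zero such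
that for all `ξ ∈ U` outside `E`, all `κ > 0` and all `m`, `g`, `d`, `A` there is `B` such that for all number fields `F ⊂ ℂ` of
degree at most `m` and all `c` there are only finitely many `x ∈ F` which are exceptional for some `T ≥ 1` with
`|x - ξ| ≤ c T ^ (-κ)`. For instance `U` is the upper half-plane, `p = 1`, `τ(x) = x` and `S = {τ}`. -/
theorem result :
    (∀ (p : ℕ) (U : Set ℂ) (τ : Fin p → ℂ → ℂ) (S : Finset (Name p)), Curve U τ S → ∀ ω : ℕ → ℂ,
      ∃ E : Set ℂ, dimH E = 0 ∧ ∀ ξ ∈ U, ξ ∉ E → ∀ κ : ℝ, 0 < κ → ∀ (m g d : ℕ) (A : ℝ), ∃ B : ℝ,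
        ∀ (F : IntermediateField ℚ ℂ) [NumberField F], Module.finrank ℚ F ≤ m → ∀ c : ℝ,
          {x : F | ∃ T : ℝ, 1 ≤ T ∧ x ∈ Exc τ S ω F U g d A B T ∧ dist (x : ℂ) ξ ≤ c * T ^ (-κ)}.Finite) ∧
    Curve {z : ℂ | 0 < z.im} (fun (_ : Fin 1) z => z) {Name.tau 0} :=
  ⟨fun _ U τ S hU ω => general U τ S hU ω, curve_id⟩

end Pool.Agent.Results.MP_ede373_nt.PointsNearAPoint
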