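import Pool.Agent.V5helper46.GP.Res2
import Pool.Agent.V5helper46.GP.P_CV
import Pool.Agent.V5helper46.GP.P_CQ
import Pool.Agent.V5helper46.GP.P_EV
import Pool.Agent.V5helper46.GP.P_SC
import Pool.Agent.V5helper19.GP.CNT
import Pool.Agent.V5helper19.GP.INR
import Pool.Agent.V5helper48.GP.PQ
import Pool.Agent.V5helper48.GP.AI
import Pool.Agent.V5helper46.GP.P_OD
import Pool.Agent.V5helper77.GP.NQ

/-!
# The modular Schanuel conjecture with derivatives: values of polynomials as invariants

Let `j` be the modular invariant and let `z_1, …, z_k` be points of the upper half-plane for which the numbers `j(z_i)`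
are algebraic. If the `z_i` are not CM points and pairwise not equivalent under `GL_2^+(ℚ)`, the modular Schanuel
conjecture with derivatives predicts that the `3 k` numbers `z_i`, `j'(z_i)`, `j''(z_i)` are algebraically independent.

Let `P_1, …, P_k` be **any** nonconstant polynomials with rational coefficients. We prove the conjecture in bounded degree
for almost all tuples of invariants `j(z_i) = P_i(n_i)`, `n_i` integers:

for all `d`, `δ`, `q` there are `c > 0` and `C` such that for all complex numbers `w_1, …, w_q` and all `N ≥ 1` with the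
exception of at most `C N^(k - c)` of the tuples of integers `n_1, …, n_k` in `[-N, N]` there is for **all** points `z_i` with
`j(z_i) = P_i(n_i)` no nontrivial relation of degree at most `δ` between `2 π i, w_1, …, w_q` and the `3 k` numbers `z_i`,
`j'(z_i)`, `j''(z_i)`, over any number field of degree at most `d`, whatever the height of its coefficients. (Nontrivial
means that the polynomial does not become zero by the substitution of `2 π i, w_1, …, w_q`.)

For example the invariants may be squares, or values `n^2 + 1`, or any perfect `m`-th powers, of which there are only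
`X^(1/m)` up to `X`. The earlier theorems of this problem (the starting files `IntegralInvariants` and
`GrowingDegreeTuples`) have an exceptional set of at most `C X^(k - c)` tuples of integers in `[-X, X]^k` with a small `c`, and
`AlgebraicWindows` is about short intervals; this says nothing on the values of polynomials of degree `m ≥ 2` (there are
`X^(k/m)` tuples of such values).

Proof. Near a large integer `t` the invariants `P(t - G u)`, `G` fixed, `u = 1, …, H`, `H` a small power of `t`, are the values
at `x = 1 / t` of functions of the form `p_u(x) / (c x^m)`, where `p_u` has integral coefficients which are bounded by a power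
of `H`. At `X = 1/j(z)` one has `2 π i z = log X + G(X)/F(X)` with the G-functions `F`, `G` of the hypergeometric equation of `j`, and
`j'`, `j''` are polynomials in `2 π i`, `j`, `F`, `X F'`. The compositions of these G-functions with `c x^m / p_u(x)` are G-functions
with constants which are polynomials in `H`, and Siegel's method can be used for many `u` together (general theorem of the
starting library `Pool.Agent.Y118.UL`): if `G` is large, the singularities for different `u` are separated, and so all functional
relations come from the relations for one `u`; and there are none for one `u` by the theorem of Ax-Schanuel type for `j` with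
derivatives (starting library `Pool.Agent.Y776`). So the number of the exceptional `n = t - G u` is bounded for each `t`.
-/

set_option autoImplicit false

namespace Pool.Agent.Results.MP_ede373_nt.PolynomialValues

/-- the normalised Eisenstein series of weight `4` -/
noncomputable def E4 (τ : ℂ) : ℂ :=
  1 + 240 * ∑' m : ℕ, ((ArithmeticFunction.sigma 3 (m + 1) : ℕ) : ℂ) *
    Complex.exp (2 * (Real.pi : ℂ) * Complex.I * ((m : ℂ) + 1) * τ)

/-- the normalised Eisenstein series of weight `6` -/
noncomputable def E6 (τ : ℂ) : ℂ :=
  1 - 504 * ∑' m : ℕ, ((ArithmeticFunction.sigma 5 (m + 1) : ℕ) : ℂ) *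
    Complex.exp (2 * (Real.pi : ℂ) * Complex.I * ((m : ℂ) + 1) * τ)

/-- the modular invariant `j = q⁻¹ + 744 + 196884 q + ⋯` -/
noncomputable def J (τ : ℂ) : ℂ := 1728 * E4 τ ^ 3 / (E4 τ ^ 3 - E6 τ ^ 2)

/-- the numbers `z`, `j'(z)`, `j''(z)` -/
noncomputable def numbers (z : ℂ) : Fin 3 → ℂ := ![z, deriv J z, deriv (deriv J) z]

/-- The numbers `2 π i, w_1, …, w_q` and `numbers (z_1), …, numbers (z_k)`. -/
noncomputable def values {q k : ℕ} (w : Fin q → ℂ) (z : Fin k → ℂ) : Option (Fin q) ⊕ Fin k × Fin 3 → ℂ :=
  Sum.elim (fun o => o.elim (2 * Real.pi * Complex.I) w) fun v => numbers (z v.1) v.2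

/-- The numbers `2 π i, w_1, …, w_q` and `3 k` variables. -/
noncomputable def generic {q k : ℕ} (w : Fin q → ℂ) :
    Option (Fin q) ⊕ Fin k × Fin 3 → MvPolynomial (Fin k × Fin 3) ℂ :=
  Sum.elim (fun o => MvPolynomial.C (o.elim (2 * Real.pi * Complex.I) w)) MvPolynomial.X

/-- For some points `z_1, …, z_k` of the upper half-plane with `j(z_i) = t_i` there is a polynomial `P` of degree at most
`δ` over a number field of degree at most `d` which vanishes at `2 π i, w_1, …, w_q` and the `3 k` numbers `z_i`, `j'(z_i)`,
`j''(z_i)` and does not become zero by the substitution of `2 π i, w_1, …, w_q`. -/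
def Exceptional {q k : ℕ} (d δ : ℕ) (w : Fin q → ℂ) (t : Fin k → ℚ) : Prop :=
  ∃ z : Fin k → ℂ, (∀ i, 0 < (z i).im ∧ J (z i) = t i) ∧
    ∃ K : IntermediateField ℚ ℂ, FiniteDimensional ℚ K ∧ Module.finrank ℚ K ≤ d ∧
      ∃ P : MvPolynomial (Option (Fin q) ⊕ Fin k × Fin 3) K, P.totalDegree ≤ δ ∧
        MvPolynomial.aeval (values w z) P = 0 ∧ MvPolynomial.aeval (generic (k := k) w) P ≠ 0

/-- Let `P_1, …, P_k` (`k ≥ 1`) be nonconstant polynomials with rational coefficients and let `q`, `d`, `δ` be given. There
are `c > 0` and `C` such that for all `w_1, …, w_q` and all `N ≥ 1` at most `C N^(k - c)` of the tuples of integers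
`n_1, …, n_k` with `|n_i| ≤ N` are exceptional for the invariants `P_i(n_i)`. -/
theorem result (k : ℕ) (hk : 1 ≤ k) (P : Fin k → Polynomial ℚ) (hP : ∀ i, 1 ≤ (P i).natDegree) (q d δ : ℕ) :
    ∃ c C : ℝ, 0 < c ∧ ∀ (w : Fin q → ℂ) (N : ℕ), 1 ≤ N →
      {n : Fin k → ℤ | (∀ i, |n i| ≤ N) ∧ Exceptional d δ w fun i => (P i).eval (n i : ℚ)}.Finite ∧
      ({n : Fin k → ℤ | (∀ i, |n i| ≤ N) ∧ Exceptional d δ w fun i => (P i).eval (n i : ℚ)}.ncard : ℝ) ≤
        C * (N : ℝ) ^ ((k : ℝ) - c) :=
  Pool.Agent.V5helper46.GP.res2
    (Pool.Agent.V5helper77.GP.t_NQ Pool.Agent.V5helper46.GP.t_SC Pool.Agent.V5helper46.GP.t_OD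
      (Pool.Agent.V5helper48.GP.t_AI Pool.Agent.V5helper46.GP.t_EV Pool.Agent.V5helper46.GP.t_SC))
    Pool.Agent.V5helper46.GP.t_CQ
    (Pool.Agent.V5helper48.GP.t_PQ Pool.Agent.V5helper46.GP.t_EV Pool.Agent.V5helper46.GP.t_SC)
    Pool.Agent.V5helper46.GP.t_CV Pool.Agent.V5helper19.GP.t_IN Pool.Agent.V5helper19.GP.t_TU hk P hP q d δ

end Pool.Agent.Results.MP_ede373_nt.PolynomialValues
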