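import Pool.Agent.V5helper46.GP.Res1
import Pool.Agent.V5helper46.GP.P_CT0
import Pool.Agent.V5helper46.GP.P_CV
import Pool.Agent.V5helper46.GP.P_LR
import Pool.Agent.V5helper46.GP.P_PS
import Pool.Agent.V5helper17.GP.LI
import Pool.Agent.V5helper17.GP.NR
import Pool.Agent.V5helper19.GP.CNT
import Pool.Agent.V5helper19.GP.INR
import Pool.Agent.V5helper47.GP.GS

/-!
# The modular Schanuel conjecture with derivatives: invariants `a n + c` with `n` composed of given primes

Let `j` be the modular invariant and let `z_1, …, z_k` be points of the upper half-plane for which the numbers `j(z_i)`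
are algebraic. If the `z_i` are not CM points and pairwise not equivalent under `GL_2^+(ℚ)`, the modular Schanuel
conjecture with derivatives predicts that the `3 k` numbers `z_i`, `j'(z_i)`, `j''(z_i)` are algebraically independent.

Let `p` be a finite set of primes. We prove the conjecture in bounded degree for almost all tuples of invariants of the
form `j(z_i) = a_i n_i + c_i`, where `a_i ≠ 0` are rational numbers, `c_i` are integers and the `n_i` are positive integers
all of whose prime factors are in `p`. For example `j(z_i) = 2^(m_i)`, or `2^(m_i) + 1`, or `± 2^(m_i) 3^(l_i) / 5`. There are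
about `c (log X)^(|p| k)` such tuples with `n_i ≤ X`, and we show:

for all `d`, `δ`, `q` there is `C` such that for all complex numbers `w_1, …, w_q` and all `X ≥ 16` with the exception of
at most `C (log X)^(|p| (k - 1)) log log X` tuples there is for **all** points `z_i` with `j(z_i) = a_i n_i + c_i` no nontrivial
relation of degree at most `δ` between `2 π i, w_1, …, w_q` and the `3 k` numbers `z_i`, `j'(z_i)`, `j''(z_i)`, over any number
field of degree at most `d`, whatever the height of its coefficients. (Nontrivial means that the polynomial does not become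
zero by the substitution of `2 π i, w_1, …, w_q`.)

So for one point, `k = 1`, all but `O(log M)` of the `M` numbers `m ≤ M` have the property that for all `z` with
`j(z) = 2^m` the numbers `z`, `j'(z)`, `j''(z)` satisfy no relation of degree `≤ δ`, even relative to the constants `w`. For
`k > 1` the tuples with two equal coordinates are exceptional (if `a_1 = a_2`, `c_1 = c_2`), so that the bound for the
number of the exceptional tuples is sharp up to `log log X`.

The earlier theorems of this problem for points with given invariants are about tuples of integers in boxes or in short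
intervals, with a power saving for the number of the exceptional tuples of integers `≤ X`; this says nothing on a set with
only `(log X)^(|p|)` elements up to `X`.

Proof. At `X = 1/j(z)` one has `2 π i z = log X + G(X)/F(X)` with the G-functions `F`, `G` of the hypergeometric equation of
`j`, and `j'`, `j''` are polynomials in `2 π i`, `j`, `F`, `X F'`. Siegel's method at `x = 1 / t` is used for the *rescaled*
functions `F(b x / (1 - c b x))`, for many scales `b` up to a power `t^(1/E)` together: if `n = t / b` (such `n` are composed of the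
primes of `p` if `t` and `b` are), the values at `x = 1 / t` are the values at `1 / n`. The G-functions of different scales
`b` have different singularities, and so the functional relations between them and their logarithms come from the
relations for one scale; this is shown by analytic continuation to the singularities. Hence the number of the exceptional
`n = t / b`, `b ≤ t^(1/E)`, is bounded for each `t`, and `O(log log X)` such windows cover the numbers `≤ X` composed of the
primes of `p`.
-/

set_option autoImplicit false

namespace Pool.Agent.Results.MP_ede373_nt.SUnitInvariants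

/-- the normalised Eisenstein series of weight `4` -/
noncomputable def E4 (τ : ℂ) : ℂ :=
  1 + 240 * ∑' m : ℕ, ((ArithmeticFunction.sigma 3 (m + 1) : ℕ) : ℂ) *
    Complex.exp (2 * (Real.pi : ℂ) * Complex.I * ((m : ℂ) + 1) * τ)

/-- the normalised Eisenstein series of weight `6` -/
noncomputable def E6 (τ : ℂ) : ℂ :=
  1 - 504 * ∑' m : ℕ, ((ArithmeticFunction.sigma 5 (m + 1) : ℕ) : ℂ) *
    Complex.exp (2 * (Real.pi : ℂ) * Complex.I * ((m : ℂ) + 1) * τ)

/-- the modular invariant `j = q⁻¹ + 744 + 196884 q + ⋯` -/
noncomputable def J (τ : ℂ) : ℂ := 1728 * E4 τ ^ 3 / (E4 τ ^ 3 - E6 τ ^ 2)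

/-- the numbers `z`, `j'(z)`, `j''(z)` -/
noncomputable def numbers (z : ℂ) : Fin 3 → ℂ := ![z, deriv J z, deriv (deriv J) z]

/-- The numbers `2 π i, w_1, …, w_q` and `numbers (z_1), …, numbers (z_k)`. -/
noncomputable def values {q k : ℕ} (w : Fin q → ℂ) (z : Fin k → ℂ) : Option (Fin q) ⊕ Fin k × Fin 3 → ℂ :=
  Sum.elim (fun o => o.elim (2 * Real.pi * Complex.I) w) fun v => numbers (z v.1) v.2

/-- The numbers `2 π i, w_1, …, w_q` and `3 k` variables. -/
noncomputable def generic {q k : ℕ} (w : Fin q → ℂ) :
    Option (Fin q) ⊕ Fin k × Fin 3 → MvPolynomial (Fin k × Fin 3) ℂ :=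
  Sum.elim (fun o => MvPolynomial.C (o.elim (2 * Real.pi * Complex.I) w)) MvPolynomial.X

/-- For some points `z_1, …, z_k` of the upper half-plane with `j(z_i) = t_i` there is a polynomial `P` of degree at most
`δ` over a number field of degree at most `d` which vanishes at `2 π i, w_1, …, w_q` and the `3 k` numbers `z_i`, `j'(z_i)`,
`j''(z_i)` and does not become zero by the substitution of `2 π i, w_1, …, w_q`. -/
def Exceptional {q k : ℕ} (d δ : ℕ) (w : Fin q → ℂ) (t : Fin k → ℚ) : Prop :=
  ∃ z : Fin k → ℂ, (∀ i, 0 < (z i).im ∧ J (z i) = t i) ∧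
    ∃ K : IntermediateField ℚ ℂ, FiniteDimensional ℚ K ∧ Module.finrank ℚ K ≤ d ∧
      ∃ P : MvPolynomial (Option (Fin q) ⊕ Fin k × Fin 3) K, P.totalDegree ≤ δ ∧
        MvPolynomial.aeval (values w z) P = 0 ∧ MvPolynomial.aeval (generic (k := k) w) P ≠ 0

/-- Let `p` be a finite set of numbers, `a_i` nonzero rational numbers, `c_i` integers (`1 ≤ i ≤ k`) and `q`, `d`, `δ` given.
There is `C` such that for all `w_1, …, w_q` and all `X ≥ 16` at most `C (log X)^(|p| (k - 1)) log log X` tuples `n_1, …, n_k` of
positive integers `n_i ≤ X` all of whose prime factors are in `p` are exceptional for the invariants `a_i n_i + c_i`. -/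
theorem result (p : Finset ℕ) (k : ℕ) (a : Fin k → ℚ) (c : Fin k → ℤ) (ha : ∀ i, a i ≠ 0) (q d δ : ℕ) :
    ∃ C : ℝ, ∀ (w : Fin q → ℂ) (X : ℝ), 16 ≤ X →
      {n : Fin k → ℕ | (∀ i, (n i : ℝ) ≤ X ∧ n i ≠ 0 ∧ (n i).primeFactors ⊆ p) ∧
        Exceptional d δ w fun i => a i * n i + c i}.Finite ∧
      ({n : Fin k → ℕ | (∀ i, (n i : ℝ) ≤ X ∧ n i ≠ 0 ∧ (n i).primeFactors ⊆ p) ∧
        Exceptional d δ w fun i => a i * n i + c i}.ncard : ℝ) ≤
        C * Real.log X ^ (p.card * (k - 1)) * Real.log (Real.log X) :=
  Pool.Agent.V5helper46.GP.res1 Pool.Agent.V5helper46.GP.t_CT0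
    (Pool.Agent.V5helper17.GP.t_NR Pool.Agent.V5helper17.GP.t_LI Pool.Agent.V5helper47.GP.t_FL
      Pool.Agent.V5helper47.GP.t_GS Pool.Agent.V5helper46.GP.t_LR)
    Pool.Agent.V5helper46.GP.t_PS Pool.Agent.V5helper46.GP.t_CV Pool.Agent.V5helper19.GP.t_IN
    Pool.Agent.V5helper19.GP.t_CN Pool.Agent.V5helper19.GP.t_NU Pool.Agent.V5helper19.GP.t_TU p k a c ha q d δ

end Pool.Agent.Results.MP_ede373_nt.SUnitInvariants
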