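import Pool.Agent.Results.MP_ede373_nt.GrowingDegreeTuples
import Pool.Agent.R482.ST.Vec

/-!
# The modular Schanuel conjecture with derivatives at all integral invariants near the vectors of a sequence

Let `f_m`, `m = 0, 1, 2, …`, be positive functions on `(a, ∞)`, `a ≥ 0`, such that `f_m(t) / t` is nondecreasing, and
such that the sequence `f_m(t)` has exponent of convergence at most `τ` for each `t > a`: for instance `f_m(t) = v_m t`
(dilatations; `τ` is the exponent of convergence of `v_m > 0`, so `τ = 0` for `v_m = m!` or `2 ^ m`), `f_m(t) = t ^ (v_m)`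
for exponents `v_m ≥ 1` (`τ = 0`), or the orbits `f_m(t) = g (g (⋯ g (t)))` of a map `g` with `g(t) > t` and `g(t) / t`
nondecreasing (`τ = 0`). For a vector `u` in `ℝ^k` we consider ALL integral vectors `n` without zero coordinates at a distance
at most `c r ^ θ` from `(r / ‖u‖) u`, `r = f_m(‖u‖)`, and the points `z_i` of the upper half-plane with `j(z_i) = n_i`.

**Theorem.** Let `k ≥ 1` and `q` be given. There is a number `C` such that:

* for all `δ`, all complex numbers `w_1, …, w_q` and all `θ < 1`, for all `u`, `‖u‖ > a`, outside a set of Hausdorff dimension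
  at most `(k - 1 / (δ + 2) ^ C + τ) / (1 - θ)`, all `c`, for all large `m` and all these `n` and `z_i` there is no relation of
  degree at most `δ` over a number field of degree at most `δ` between `2 π i, w_1, …, w_q` and the `3 k` numbers `z_i`, `j'(z_i)`,
  `j''(z_i)` which is not trivial;
* for almost all `u`, `‖u‖ > a`, this is true for all `δ`, all `c` and all `θ < (1 / (δ + 2) ^ C - τ) / k` at once.

For a fixed `u` and, say, `f_m(t) = m! t` these are very few vectors `n`, not seen by the number of the exceptional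
vectors up to a given height. The third derivatives of `j` are not needed, and a relation is trivial if it
becomes zero by the substitution of `2 π i, w_1, …, w_q`.

Proof. The exceptional vectors in the box `[-T, T] ^ k` are `O(T ^ (k - 1 / (δ + 2) ^ C))` (`GrowingDegreeTuples`), and a thin
set of integral vectors is seen in the windows of few `u` (`Pool.Agent.R482.ST`, helper482).
-/

set_option autoImplicit false

namespace Pool.Agent.Results.MP_ede373_nt.StarshapedInvariants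

open MeasureTheory
open Pool.Agent.Results.MP_ede373_nt.GrowingDegreeTuples (Exceptional)

/-- the functions `f m` are positive on `(a, ∞)`, `a ≥ 0`, and `f m x / x` is nondecreasing there -/
def Starshaped (a : ℝ) (f : ℕ → ℝ → ℝ) : Prop :=
  0 ≤ a ∧ ∀ m : ℕ, ∀ x y : ℝ, a < x → x ≤ y → 0 < f m x ∧ f m x / x ≤ f m y / y

/-- for each `x > a` the exponent of convergence of the sequence `f m x` is at most `τ` -/
def ExpLe (a : ℝ) (f : ℕ → ℝ → ℝ) (τ : ℝ) : Prop :=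
  ∀ x : ℝ, a < x → ∀ t : ℝ, τ < t → Summable (fun m : ℕ => (f m x) ^ (-t))

/-- for all large `m` no integral vector `n` without zero coordinates at a distance (in the maximum norm) at most `c r ^ θ`
from `(r / ‖u‖) u`, `r = f_m(‖u‖)`, is exceptional for the degree `δ` -/
def Good {k q : ℕ} (f : ℕ → ℝ → ℝ) (u : Fin k → ℝ) (δ : ℕ) (w : Fin q → ℂ) (θ c : ℝ) : Prop :=
  ∃ m₀ : ℕ, ∀ m : ℕ, m₀ ≤ m → ∀ n : Fin k → ℤ, (∀ i, n i ≠ 0) →
    (∀ i, |(n i : ℝ) - f m ‖u‖ / ‖u‖ * u i| ≤ c * (f m ‖u‖) ^ θ) → ¬ Exceptional δ w n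

theorem null_of_dim {k : ℕ} (hk : 1 ≤ k) {E : Set (Fin k → ℝ)} {s : ℝ} (hs : s < k)
    (h : dimH E ≤ ENNReal.ofReal s) : volume E = 0 := by
  have h1 : dimH E < ((k : NNReal) : ENNReal) := by
    refine lt_of_le_of_lt h ?_
    rw [ENNReal.coe_natCast, ← ENNReal.ofReal_natCast]
    exact (ENNReal.ofReal_lt_ofReal_iff (by exact_mod_cast hk)).2 hs
  have h2 := hausdorffMeasure_of_dimH_lt h1
  have h3 : (μH[(Fintype.card (Fin k) : ℝ)] : Measure (Fin k → ℝ)) = volume := hausdorffMeasure_pi_real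
  rw [← h3, Fintype.card_fin]
  simpa using h2

theorem good_mono {k q : ℕ} {f : ℕ → ℝ → ℝ} {a τ : ℝ} (hf : Starshaped a f) (hτ : 0 ≤ τ)
    (hE : ExpLe a f τ) {u : Fin k → ℝ} (hu : a < ‖u‖) {δ : ℕ} {w : Fin q → ℂ} {θ ϑ c : ℝ} (hθ : θ ≤ ϑ)
    (h : Good f u δ w ϑ (max c 0)) : Good f u δ w θ c := by
  obtain ⟨m₀, hm⟩ := h
  have hlim := (hE ‖u‖ hu (τ + 1) (by linarith)).tendsto_atTop_zero
  obtain ⟨m₁, hm₁⟩ := Filter.eventually_atTop.1 (hlim.eventually_lt_const one_pos)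
  refine ⟨max m₀ m₁, fun m hmm n hn hnear => hm m ((le_max_left _ _).trans hmm) n hn fun i => ?_⟩
  have hpos : 0 < f m ‖u‖ := (hf.2 m _ _ hu le_rfl).1
  have h1 : 1 ≤ f m ‖u‖ := by
    by_contra hcon
    rw [not_le] at hcon
    have h2 := hm₁ m ((le_max_right _ _).trans hmm)
    have h3 : (1 : ℝ) ≤ (f m ‖u‖) ^ (-(τ + 1)) :=
      Real.one_le_rpow_of_pos_of_le_one_of_nonpos hpos hcon.le (by linarith)
    linarith
  refine (hnear i).trans ?_
  calc c * (f m ‖u‖) ^ θ ≤ max c 0 * (f m ‖u‖) ^ θ :=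
        mul_le_mul_of_nonneg_right (le_max_left _ _) (by positivity)
    _ ≤ max c 0 * (f m ‖u‖) ^ ϑ :=
        mul_le_mul_of_nonneg_left (Real.rpow_le_rpow_of_exponent_le h1 hθ) (le_max_right _ _)

/-- **Theorem.** -/
theorem result (k q : ℕ) (hk : 1 ≤ k) :
    (∃ C : ℕ, ∀ (a : ℝ) (f : ℕ → ℝ → ℝ) (τ : ℝ), Starshaped a f → 0 ≤ τ → ExpLe a f τ → ∀ w : Fin q → ℂ,
      (∀ (δ : ℕ) (θ : ℝ), θ < 1 → ∃ E : Set (Fin k → ℝ),
        dimH E ≤ ENNReal.ofReal ((k - 1 / ((δ : ℝ) + 2) ^ C + τ) / (1 - θ)) ∧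
        ∀ u : Fin k → ℝ, a < ‖u‖ → u ∉ E → ∀ c : ℝ, Good f u δ w θ c) ∧
      ∀ᵐ u : Fin k → ℝ, a < ‖u‖ → ∀ (δ : ℕ) (θ c : ℝ), θ < (1 / ((δ : ℝ) + 2) ^ C - τ) / k →
        Good f u δ w θ c) ∧
    (∀ (v : ℕ → ℝ) (τ : ℝ), (∀ m, 0 < v m) → (∀ t : ℝ, τ < t → Summable (fun m : ℕ => (v m) ^ (-t))) →
      Starshaped 0 (fun m x => v m * x) ∧ ExpLe 0 (fun m x => v m * x) τ) ∧
    (∀ v : ℕ → ℝ, (∀ m, 1 ≤ v m) → (∀ t : ℝ, 0 < t → Summable fun m : ℕ => Real.exp (-(t * v m))) →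
      Starshaped 1 (fun m x => x ^ (v m)) ∧ ExpLe 1 (fun m x => x ^ (v m)) 0) ∧
    (∀ (a : ℝ) (g : ℝ → ℝ), 0 ≤ a → (∀ x y : ℝ, a < x → x ≤ y → g x / x ≤ g y / y) → (∀ x : ℝ, a < x → x < g x) →
      Starshaped a (fun m x => g^[m] x) ∧ ExpLe a (fun m x => g^[m] x) 0) := by
  classical
  refine ⟨?_, Pool.Agent.R482.ST.ex_mul, Pool.Agent.R482.ST.ex_pow, Pool.Agent.R482.ST.ex_orbit⟩
  obtain ⟨C, hC⟩ := GrowingDegreeTuples.result k q
  refine ⟨C, fun a f τ hf hτ hE w => ?_⟩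
  have hk1 : (1 : ℝ) ≤ k := by exact_mod_cast hk
  have hpow : ∀ δ : ℕ, (0 : ℝ) < 1 / ((δ : ℝ) + 2) ^ C ∧ 1 / ((δ : ℝ) + 2) ^ C ≤ 1 := by
    intro δ
    have h1 : (1 : ℝ) ≤ ((δ : ℝ) + 2) ^ C := one_le_pow₀ (by linarith [Nat.cast_nonneg (α := ℝ) δ])
    exact ⟨by positivity, by rw [div_le_one (by linarith)]; exact h1⟩
  have key : ∀ (δ : ℕ) (θ : ℝ), θ < 1 → ∃ E : Set (Fin k → ℝ),
      dimH E ≤ ENNReal.ofReal ((k - 1 / ((δ : ℝ) + 2) ^ C + τ) / (1 - θ)) ∧
      ∀ u : Fin k → ℝ, a < ‖u‖ → u ∉ E → ∀ c : ℝ, Good f u δ w θ c := by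
    intro δ θ hθ
    have hs : (0 : ℝ) ≤ k - 1 / ((δ : ℝ) + 2) ^ C := by linarith [(hpow δ).2]
    obtain ⟨E, hE1, hE2⟩ := Pool.Agent.R482.ST.vec_prop (ι := Fin k)
      (fun n _ => (∀ i, n i ≠ 0) ∧ Exceptional δ w n) (fun n X Y _ h => h) hs
      (fun ε hε => by
        refine ⟨C, fun H hH => ?_⟩
        have h1 := hC δ w H hH
        have h2 : {z : Fin k → ℤ | (∀ i, |z i| ≤ (H : ℤ)) ∧ (∀ i, z i ≠ 0) ∧ Exceptional δ w z} =
            (((Fintype.piFinset fun _ : Fin k => Finset.Icc (-(H : ℤ)) H).filter fun n =>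
              (∀ i, n i ≠ 0) ∧ Exceptional δ w n : Finset (Fin k → ℤ)) : Set (Fin k → ℤ)) := by
          ext z
          simp only [Set.mem_ofPred_eq, Finset.coe_filter, Fintype.mem_piFinset, Finset.mem_Icc, abs_le]
        rw [h2, Set.ncard_coe_finset]
        refine h1.trans (mul_le_mul_of_nonneg_left ?_ (Nat.cast_nonneg _))
        exact Real.rpow_le_rpow_of_exponent_le (by exact_mod_cast hH) (by linarith)) f a τ θ hf hτ hE hθ
    refine ⟨E, hE1, fun u hu huE c => ?_⟩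
    obtain ⟨m₀, hm⟩ := hE2 u hu huE c
    exact ⟨m₀, fun m hm1 n hn hnear hex => hm m hm1 n hnear ⟨hn, hex⟩⟩
  refine ⟨key, ?_⟩
  choose E hE1 hE2 using key
  have hae : ∀ p : ℕ × ℚ, ∀ᵐ u : Fin k → ℝ, a < ‖u‖ → (p.2 : ℝ) < (1 / ((p.1 : ℝ) + 2) ^ C - τ) / k →
      ∀ c, Good f u p.1 w p.2 c := by
    rintro ⟨δ, θ⟩
    by_cases hθ : (θ : ℝ) < (1 / ((δ : ℝ) + 2) ^ C - τ) / k
    · have h1 : (θ : ℝ) < 1 := by
        refine hθ.trans_le ?_
        rw [div_le_one (by linarith)]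
        linarith [(hpow δ).2]
      have h2 : (k - 1 / ((δ : ℝ) + 2) ^ C + τ) / (1 - θ) < k := by
        rw [div_lt_iff₀ (by linarith)]
        rw [lt_div_iff₀ (by linarith)] at hθ
        nlinarith
      have h3 : volume (E δ θ h1) = 0 := null_of_dim hk h2 (hE1 δ θ h1)
      filter_upwards [compl_mem_ae_iff.2 h3] with u hu hau _ c
      exact hE2 δ θ h1 u hau hu c
    · exact Filter.Eventually.of_forall fun u _ h => absurd h hθ
  filter_upwards [ae_all_iff.2 hae] with u hu hau δ θ c hθ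
  obtain ⟨ϑ, h1, h2⟩ := exists_rat_btwn hθ
  exact good_mono hf hτ hE hau h1.le (hu (δ, ϑ) hau h2 (max c 0))

end Pool.Agent.Results.MP_ede373_nt.StarshapedInvariants
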